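import Mathlib

/-!
Rice's problem on surfaces generated by varisolvent functions on a finite set:
if `g` is varisolvent on the finite set `Q` and the surface `G` is connected, then `G` is
not closed.
-/

namespace Pool.Agent.Results.MP_850d3d_an.RiceNotClosed

open Set

/-- The surface `G = {g(α, ·) : α ∈ 𝒜}` in `C_R(Q) = (Q → ℝ)`. -/
def surface {A Q : Type*} (g : A → Q → ℝ) : Set (Q → ℝ) :=
  {f | ∃ a : A, f = g a}

/-- `g` is locally solvent of degree `m` at `a₀`. -/
def LocallySolventAt {A Q : Type*} (g : A → Q → ℝ) (m : ℕ) (a₀ : A) : Prop :=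
  ∀ t : Fin m → Q, Function.Injective t → ∀ ε : ℝ, 0 < ε → ∃ δ : ℝ, 0 < δ ∧
    ∀ γ : Fin m → ℝ, (∀ i, |g a₀ (t i) - γ i| < δ) →
      ∃ a : A, (∀ i, g a (t i) = γ i) ∧ ∀ q : Q, |g a q - g a₀ q| < ε

/-- `g` is varisolvent on the finite set `Q`: there is a non-constant degree function `p` with
values in `{1, …, |Q|}` such that `g` is locally solvent of degree `p a₀` at every `a₀`, and for
every `a ≠ a₀` the function `g a₀ - g a` has at most `p a₀ - 1` zeros on `Q`. -/
def Varisolvent {A Q : Type*} [Fintype Q] (g : A → Q → ℝ) : Prop :=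
  ∃ p : A → ℕ, (∃ a b, p a ≠ p b) ∧ (∀ a, 1 ≤ p a ∧ p a ≤ Fintype.card Q) ∧
    (∀ a₀, LocallySolventAt g (p a₀) a₀) ∧
    (∀ a₀ a, a ≠ a₀ → {q : Q | g a₀ q - g a q = 0}.ncard ≤ p a₀ - 1)

section aux

variable {A Q : Type*} [Fintype Q] {g : A → Q → ℝ} {p : A → ℕ}

lemma agree_card (h1 : ∀ a, 1 ≤ p a ∧ p a ≤ Fintype.card Q)
    (hz : ∀ a₀ a, a ≠ a₀ → {q : Q | g a₀ q - g a q = 0}.ncard ≤ p a₀ - 1)
    {a₀ a : A} (hne : a ≠ a₀) (S : Finset Q) (hS : ∀ q ∈ S, g a q = g a₀ q) :
    S.card < p a₀ := by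
  have h := hz a₀ a hne
  have hsub : (S : Set Q) ⊆ {q : Q | g a₀ q - g a q = 0} := by
    intro q hq
    change g a₀ q - g a q = 0
    rw [hS q hq]; ring
  have h2 := Set.ncard_le_ncard hsub (Set.toFinite _)
  rw [Set.ncard_coe_finset] at h2
  have := (h1 a₀).1
  omega

lemma inj_of (h1 : ∀ a, 1 ≤ p a ∧ p a ≤ Fintype.card Q)
    (hz : ∀ a₀ a, a ≠ a₀ → {q : Q | g a₀ q - g a q = 0}.ncard ≤ p a₀ - 1)
    {a b : A} (hab : g a = g b) : a = b := by
  by_contra hne
  have h := agree_card h1 hz hne Finset.univ (fun q _ => by rw [hab])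
  rw [Finset.card_univ] at h
  have := (h1 b).2
  omega

omit [Fintype Q] in
lemma solv_finset {a₀ : A} {m : ℕ} (h : LocallySolventAt g m a₀) (T : Finset Q)
    (hT : T.card = m) {ε : ℝ} (hε : 0 < ε) :
    ∃ δ : ℝ, 0 < δ ∧ ∀ γ : Q → ℝ, (∀ q ∈ T, |g a₀ q - γ q| < δ) →
      ∃ a : A, (∀ q ∈ T, g a q = γ q) ∧ ∀ q : Q, |g a q - g a₀ q| < ε := by
  subst hT
  let e := T.equivFin
  obtain ⟨δ, hδ, H⟩ := h (fun i => (e.symm i : Q))
    (fun i j hij => by
      have : e.symm i = e.symm j := Subtype.ext hij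
      exact e.symm.injective this) ε hε
  refine ⟨δ, hδ, fun γ hγ => ?_⟩
  obtain ⟨a, ha, ha'⟩ := H (fun i => γ (e.symm i)) (fun i => hγ _ (e.symm i).2)
  refine ⟨a, fun q hq => ?_, ha'⟩
  have := ha (e ⟨q, hq⟩)
  simpa using this

/-- lower semicontinuity of the degree -/
lemma lsc (h1 : ∀ a, 1 ≤ p a ∧ p a ≤ Fintype.card Q)
    (hs : ∀ a₀, LocallySolventAt g (p a₀) a₀)
    (hz : ∀ a₀ a, a ≠ a₀ → {q : Q | g a₀ q - g a q = 0}.ncard ≤ p a₀ - 1)
    (a₀ : A) : ∃ δ : ℝ, 0 < δ ∧ ∀ a, (∀ q, |g a q - g a₀ q| < δ) → p a₀ ≤ p a := by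
  classical
  obtain ⟨T, -, hT⟩ := Finset.exists_subset_card_eq (s := (Finset.univ : Finset Q))
    (n := p a₀) (by rw [Finset.card_univ]; exact (h1 a₀).2)
  obtain ⟨δ, hδ, H⟩ := solv_finset (hs a₀) T hT one_pos
  refine ⟨δ / 2, by positivity, fun a ha => ?_⟩
  by_contra hlt
  push Not at hlt
  obtain ⟨S, hST, hS⟩ := Finset.exists_subset_card_eq (s := T) (n := p a) (by omega)
  have hex : ∃ q₀ ∈ T, q₀ ∉ S := by
    by_contra hcon
    push Not at hcon
    have : T ⊆ S := hcon
    have := Finset.card_le_card this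
    omega
  obtain ⟨q₀, hq₀T, hq₀S⟩ := hex
  obtain ⟨b, hb, -⟩ := H (fun q => if q = q₀ then g a q + δ / 4 else g a q) (by
    intro q _
    have h3 := ha q
    rw [abs_sub_comm] at h3
    by_cases hq : q = q₀
    · simp only [hq, if_true]
      rw [hq] at h3
      calc |g a₀ q₀ - (g a q₀ + δ / 4)| = |(g a₀ q₀ - g a q₀) + (-(δ / 4))| := by ring_nf
        _ ≤ |g a₀ q₀ - g a q₀| + |-(δ / 4)| := abs_add_le _ _
        _ < δ := by rw [abs_neg, abs_of_pos (by positivity : 0 < δ / 4)]; linarith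
    · simp only [hq, if_false]
      linarith)
  have hne : b ≠ a := by
    rintro rfl
    have := hb q₀ hq₀T
    simp only [if_true] at this
    linarith
  have h4 := agree_card h1 hz hne S (fun q hq => by
    have := hb q (hST hq)
    have hqq : q ≠ q₀ := fun h => hq₀S (h ▸ hq)
    simpa [hqq] using this)
  omega

/-- upper semicontinuity of the degree when the surface is closed -/
lemma usc (h1 : ∀ a, 1 ≤ p a ∧ p a ≤ Fintype.card Q)
    (hs : ∀ a₀, LocallySolventAt g (p a₀) a₀)
    (hz : ∀ a₀ a, a ≠ a₀ → {q : Q | g a₀ q - g a q = 0}.ncard ≤ p a₀ - 1)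
    (hcl : IsClosed (surface g))
    (a₀ : A) : ∃ δ : ℝ, 0 < δ ∧ ∀ a, (∀ q, |g a q - g a₀ q| < δ) → p a ≤ p a₀ := by
  classical
  obtain ⟨T, -, hT⟩ := Finset.exists_subset_card_eq (s := (Finset.univ : Finset Q))
    (n := p a₀) (by rw [Finset.card_univ]; exact (h1 a₀).2)
  -- the sphere
  set Sph : Set (Q → ℝ) := surface g ∩ Metric.sphere (g a₀) 1 with hSph
  have hSphc : IsCompact Sph := (isCompact_sphere (g a₀) 1).inter_left hcl
  -- lower bound on the sphere
  have hc : ∃ c : ℝ, 0 < c ∧ ∀ z ∈ Sph, ∃ q ∈ T, c ≤ |z q - g a₀ q| := by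
    have hTne : T.Nonempty := by
      rw [← Finset.card_pos, hT]; exact (h1 a₀).1
    set F : (Q → ℝ) → ℝ := fun z => ∑ q ∈ T, |z q - g a₀ q| with hF
    have hFc : Continuous F := by
      rw [hF]
      fun_prop
    rcases Sph.eq_empty_or_nonempty with he | hne
    · exact ⟨1, one_pos, fun z hz' => by rw [he] at hz'; exact hz'.elim⟩
    · obtain ⟨z₀, hz₀, hmin⟩ := hSphc.exists_isMinOn hne hFc.continuousOn
      have hpos : 0 < F z₀ := by
        rcases (Finset.sum_nonneg (fun q _ => abs_nonneg _) :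
          0 ≤ ∑ q ∈ T, |z₀ q - g a₀ q|).lt_or_eq with h | h
        · exact h
        · exfalso
          have h5 := (Finset.sum_eq_zero_iff_of_nonneg (fun q _ => abs_nonneg _)).1 h.symm
          obtain ⟨b, hb⟩ := hz₀.1
          have hne' : b ≠ a₀ := by
            rintro rfl
            have := hz₀.2
            rw [hb, Metric.mem_sphere, dist_self] at this
            norm_num at this
          have h6 := agree_card h1 hz hne' T (fun q hq => by
            have := h5 q hq
            rw [abs_eq_zero, sub_eq_zero, hb] at this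
            exact this)
          omega
      refine ⟨F z₀ / T.card, by
        have : 0 < (T.card : ℝ) := by exact_mod_cast hTne.card_pos
        positivity, fun z hz' => ?_⟩
      by_contra hcon
      push Not at hcon
      have h7 : F z < F z₀ := by
        calc F z = ∑ q ∈ T, |z q - g a₀ q| := rfl
          _ < ∑ q ∈ T, F z₀ / T.card := Finset.sum_lt_sum_of_nonempty hTne hcon
          _ = F z₀ := by
            rw [Finset.sum_const, nsmul_eq_mul]
            have : (T.card : ℝ) ≠ 0 := by exact_mod_cast hTne.card_pos.ne'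
            field_simp
      have h8 : F z₀ ≤ F z := hmin hz'
      linarith
  obtain ⟨c, hc0, hc⟩ := hc
  refine ⟨min c 1, lt_min hc0 one_pos, fun a ha => ?_⟩
  by_contra hlt
  push Not at hlt
  -- choose `j ∉ T`
  have hex : ∃ j, j ∉ T := by
    by_contra hcon
    push Not at hcon
    have : T = Finset.univ := Finset.eq_univ_iff_forall.2 hcon
    rw [this, Finset.card_univ] at hT
    have := (h1 a).2
    omega
  obtain ⟨j, hj⟩ := hex
  set K : Set (Q → ℝ) :=
    (surface g ∩ {z | ∀ q ∈ T, z q = g a q}) ∩ Metric.closedBall (g a₀) 1 with hK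
  have hKc : IsCompact K := by
    refine (isCompact_closedBall (g a₀) 1).inter_left (hcl.inter ?_)
    have : {z : Q → ℝ | ∀ q ∈ T, z q = g a q} = ⋂ q ∈ T, {z : Q → ℝ | z q = g a q} := by
      ext z; simp
    rw [this]
    exact isClosed_biInter fun q _ => isClosed_eq (continuous_apply q) continuous_const
  have haK : g a ∈ K := by
    refine ⟨⟨⟨a, rfl⟩, fun q _ => rfl⟩, ?_⟩
    rw [Metric.mem_closedBall, dist_pi_le_iff zero_le_one]
    intro q
    rw [Real.dist_eq]
    exact ((ha q).trans_le (min_le_right _ _)).le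
  obtain ⟨z, hzK, hzmax⟩ := hKc.exists_isMaxOn ⟨_, haK⟩ (continuous_apply j).continuousOn
  obtain ⟨b, hb⟩ := hzK.1.1
  have hbT : ∀ q ∈ T, g b q = g a q := by
    intro q hq
    rw [← hb]; exact hzK.1.2 q hq
  -- degree of b is larger than `p a₀`
  have hpb : p a₀ < p b := by
    by_cases hba : b = a
    · rw [hba]; exact hlt
    · have := agree_card h1 hz (a₀ := b) (a := a) (Ne.symm hba) T (fun q hq => (hbT q hq).symm)
      omega
  -- distance is smaller than 1
  have hdist : dist (g b) (g a₀) < 1 := by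
    have h9 : dist (g b) (g a₀) ≤ 1 := by
      have := hzK.2
      rwa [hb, Metric.mem_closedBall] at this
    rcases h9.lt_or_eq with h | h
    · exact h
    · exfalso
      obtain ⟨q, hq, hcq⟩ := hc (g b) ⟨⟨b, rfl⟩, by rw [Metric.mem_sphere]; exact h⟩
      rw [hbT q hq] at hcq
      have := (ha q).trans_le (min_le_left _ _)
      linarith
  obtain ⟨T', hT'1, -, hT'2⟩ := Finset.exists_subsuperset_card_eq (s := insert j T)
    (t := (Finset.univ : Finset Q)) (n := p b) (Finset.subset_univ _)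
    (by rw [Finset.card_insert_of_notMem hj]; omega)
    (by rw [Finset.card_univ]; exact (h1 b).2)
  obtain ⟨δ', hδ', H⟩ := solv_finset (hs b) T' hT'2
    (ε := 1 - dist (g b) (g a₀)) (by linarith)
  obtain ⟨a', ha', ha''⟩ := H (fun q => if q = j then g b q + δ' / 2 else g b q) (by
    intro q _
    by_cases hq : q = j
    · simp only [hq, if_true]
      rw [show g b j - (g b j + δ' / 2) = -(δ' / 2) by ring, abs_neg,
        abs_of_pos (by positivity : 0 < δ' / 2)]
      linarith
    · simp only [hq, if_false, sub_self, abs_zero]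
      exact hδ')
  have hKa' : g a' ∈ K := by
    refine ⟨⟨⟨a', rfl⟩, fun q hq => ?_⟩, ?_⟩
    · have := ha' q (hT'1 (Finset.mem_insert_of_mem hq))
      have hqj : q ≠ j := fun h => hj (h ▸ hq)
      rw [if_neg hqj] at this
      rw [this, hbT q hq]
    · rw [Metric.mem_closedBall]
      have h10 : dist (g a') (g b) ≤ 1 - dist (g b) (g a₀) := by
        rw [dist_pi_le_iff (by linarith)]
        intro q
        rw [Real.dist_eq]
        exact (ha'' q).le
      calc dist (g a') (g a₀) ≤ dist (g a') (g b) + dist (g b) (g a₀) := dist_triangle _ _ _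
        _ ≤ 1 := by linarith
  have h11 : g a' j ≤ z j := hzmax hKa'
  have h12 := ha' j (hT'1 (Finset.mem_insert_self _ _))
  simp only [if_true] at h12
  rw [hb] at h11
  linarith

end aux

/-- **Rice's problem.** Let `𝒜` be a subset of a finite-dimensional real or complex normed space,
`Q` a finite set and `g : 𝒜 × Q → ℝ` continuous in the parameter. If `g` is varisolvent on `Q`
and the surface `G` is connected, then `G` is not closed in `C_R(Q) = ℝ^Q`. -/
theorem result {𝕜 : Type*} [RCLike 𝕜] {B : Type*} [NormedAddCommGroup B] [NormedSpace 𝕜 B]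
    [FiniteDimensional 𝕜 B] (A : Set B) {Q : Type*} [Fintype Q] (g : A → Q → ℝ)
    (_hcont : ∀ q : Q, Continuous fun a : A => g a q)
    (hg : Varisolvent g) (hconn : IsConnected (surface g)) :
    ¬ IsClosed (surface g) := by
  intro hcl
  obtain ⟨p, ⟨a, b, hab⟩, h1, hs, hz⟩ := hg
  -- degree as a function on the surface
  let P : surface g → ℕ := fun z => p z.2.choose
  have hP : ∀ (c : A) (hc : g c ∈ surface g), P ⟨g c, hc⟩ = p c := by
    intro c hc
    have h := hc.choose_spec
    have : hc.choose = c := inj_of h1 hz h.symm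
    change p hc.choose = p c
    rw [this]
  have hloc : IsLocallyConstant P := by
    rw [IsLocallyConstant.iff_exists_open]
    rintro ⟨z, c, rfl⟩
    obtain ⟨δ₁, hδ₁, H₁⟩ := lsc h1 hs hz c
    obtain ⟨δ₂, hδ₂, H₂⟩ := usc h1 hs hz hcl c
    refine ⟨Metric.ball ⟨g c, c, rfl⟩ (min δ₁ δ₂), Metric.isOpen_ball,
      Metric.mem_ball_self (lt_min hδ₁ hδ₂), ?_⟩
    rintro ⟨w, d, rfl⟩ hw
    rw [hP d ⟨d, rfl⟩, hP c ⟨c, rfl⟩]
    have hw' : ∀ q, |g d q - g c q| < min δ₁ δ₂ := by
      intro q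
      have h13 : dist (g d) (g c) < min δ₁ δ₂ := by
        rw [Metric.mem_ball] at hw
        exact hw
      rw [← Real.dist_eq]
      exact (dist_le_pi_dist (g d) (g c) q).trans_lt h13
    apply le_antisymm
    · exact H₂ d fun q => (hw' q).trans_le (min_le_right _ _)
    · exact H₁ d fun q => (hw' q).trans_le (min_le_left _ _)
  have : PreconnectedSpace (surface g) :=
    isPreconnected_iff_preconnectedSpace.1 hconn.isPreconnected
  have := hloc.apply_eq_of_preconnectedSpace ⟨g a, a, rfl⟩ ⟨g b, b, rfl⟩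
  rw [hP a ⟨a, rfl⟩, hP b ⟨b, rfl⟩] at this
  exact hab this

end Pool.Agent.Results.MP_850d3d_an.RiceNotClosed
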